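import Pool.Agent.Helper980.Polar.Gch

/-!
# Over every model of GCH the relation `(ℵ₂, ℵ₃) → (ℵ₂, ℵ₂; ℵ₁, ℵ₁)` can be forced to fail, with
GCH and all cardinals preserved

Assume GCH. For every infinite cardinal `μ` there is a notion of forcing all of whose conditions
force the following three sentences: all cardinals of the ground model are cardinals, GCH holds,
and there is a partition `μ⁺ × μ⁺⁺ = Δ₀ ∪ Δ₁` such that no product of a set of size `μ⁺` and a set
of size `μ` is contained in `Δ₀` or in `Δ₁`. The case `μ = ℵ₁` is the relation of the problem.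
-/

set_option autoImplicit false

namespace Pool.Agent.Results.MP_9ed2bb_lc.FailureForcedUnderGCH

open Cardinal Ordinal Pool.Agent.Helper980.G
open Pool.Agent.Helper669.Forcing Pool.Agent.Helper669.K
open Pool.Agent.Helper980

section

variable {P : Type} [Preorder P]

theorem not_relation {K S I : Type} (h : ∀ p : P, p ∈ Prikry.NotPol P K S I) (p : P) :
    p ∈ fnot (Relation P K S I) := by
  intro q _ hq
  obtain ⟨r, hr, F, h1⟩ := Polar.mem_fex.1 (h q) q le_rfl
  obtain ⟨s, hs, A, hs1⟩ := mem_fex.1 (hq F) r hr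
  obtain ⟨t, ht, B, hA, hB, h3⟩ := mem_fex.1 hs1 s le_rfl
  have hA' : t ∈ AtLeast K A := hA
  have hB' : t ∈ AtLeast I B := hB
  obtain ⟨v, hv, h4, h5⟩ := Polar.mem_fimp.1 (h1 A B) t (ht.trans hs)
    ⟨atLeast_conv hA', atLeast_conv hB'⟩
  have h3' := down_fnot _ _ h3 v hv
  obtain ⟨w, hw, h6⟩ := mem_for h3'
  rcases h6 with h6 | h6
  · exact h5 w hw (fun x y => h6 x y)
  · exact h4 w hw (fun x y => h6 x y)

end

/-- Some notion of forcing `P` is such that all its conditions force that all cardinals are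
preserved, that GCH holds, and that the relation `(K, S) → (K, K; I, I)` fails (for the
cardinalities of the sets `K`, `S`, `I` of the ground model). -/
def FailureForced (K S I : Cardinal.{0}) : Prop :=
  ∃ (P : Type) (_ : Preorder P), Nonempty P ∧ ∀ p : P,
    p ∈ CardinalsPreserved.{0, 0} P ∧ p ∈ ForcesGCH P ∧
    p ∈ fnot (Relation P K.ord.ToType S.ord.ToType I.ord.ToType)

theorem forced (hG : ∀ ν : Cardinal.{0}, ℵ₀ ≤ ν → 2 ^ ν = Order.succ ν) (μ : Cardinal.{0})
    (h0 : ℵ₀ ≤ μ) : FailureForced (Order.succ μ) (Order.succ (Order.succ μ)) μ := by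
  obtain ⟨P, hP, hne, hc, h3, hcc, h5⟩ := Prikry.exists_forcing (mu := μ) h0 (hG μ h0)
    (K := (Order.succ μ).ord.ToType) (S := (Order.succ (Order.succ μ)).ord.ToType)
    (I := μ.ord.ToType) (by simp) (by simp) (by simp)
  have hs0 : ℵ₀ ≤ Order.succ μ := h0.trans (Order.le_succ μ)
  refine ⟨P, hP, hne, fun p => ⟨?_, ?_, not_relation (fun q => (h5 q).1) p⟩⟩
  · exact cardinals_preserved hs0 (fun ν h => Order.succ_le_of_lt h) hcc (noNew_all h3) p
  · intro X Y hX
    rcases le_or_gt #Y #X with h | h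
    · exact for_left (down_fex _) (sizeLe_of_le h p)
    · have hX0 : ℵ₀ ≤ #X := aleph0_le_mk X
      have hY : 2 ^ #X ≤ #Y := by
        rw [hG _ hX0]
        exact Order.succ_le_of_lt h
      refine for_right (down_fex _) ?_
      rcases le_or_gt #X μ with h4 | h4
      · exact powerLe_small hY
          (fun A p => decide_subset A (fun Y R hp => noNew_all h3 X Y h4 R p hp)) p
      · exact powerLe_big hs0 hcc (hc.trans (hG _ hs0).ge) (Order.succ_le_of_lt h4) hY p

/-- **Main theorem.** -/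
theorem result (hG : ∀ ν : Cardinal.{0}, ℵ₀ ≤ ν → 2 ^ ν = Order.succ ν) :
    (∀ μ : Cardinal.{0}, ℵ₀ ≤ μ →
      FailureForced (Order.succ μ) (Order.succ (Order.succ μ)) μ) ∧
    FailureForced (ℵ_ 2) (ℵ_ 3) (ℵ_ 1) := by
  have h1 : ∀ μ : Cardinal.{0}, ℵ₀ ≤ μ →
      FailureForced (Order.succ μ) (Order.succ (Order.succ μ)) μ := fun μ h => forced hG μ h
  refine ⟨h1, ?_⟩
  have h2 := h1 (ℵ_ 1) (aleph0_le_aleph 1)
  have e2 : Order.succ (ℵ_ (1 : Ordinal.{0})) = ℵ_ 2 := by
    rw [Cardinal.succ_aleph, one_add_one_eq_two]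
  have e3 : Order.succ (ℵ_ (2 : Ordinal.{0})) = ℵ_ 3 := by
    rw [Cardinal.succ_aleph, two_add_one_eq_three]
  rw [e2, e3] at h2
  exact h2

end Pool.Agent.Results.MP_9ed2bb_lc.FailureForcedUnderGCH
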